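import Pool.Agent.Q38.LC.Dim

/-!
# A one-dimensional compact connected space (MP_f0c992_lc): a basis with small boundaries
-/

set_option autoImplicit false

namespace Pool.Agent.Q38.LC

open BoundedContinuousFunction Pool.Agent.W361.LQ
open Pool.Agent.W654.LQ.Dense

/-- the closed neighbourhood -/
def ZC (S : Set ℕ) (f : C(X1 S, UnitAddCircle)) (x : X1 S) (δ : ℝ) (N : ℕ) : Set (X1 S) :=
  {y | ‖f y - f x‖ ≤ δ ∧ ∀ n < N, |rad S n y - rad S n x| ≤ δ}

/-- the open neighbourhood -/
def ZO (S : Set ℕ) (f : C(X1 S, UnitAddCircle)) (x : X1 S) (δ : ℝ) (N : ℕ) : Set (X1 S) :=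
  {y | ‖f y - f x‖ < δ ∧ ∀ n < N, |rad S n y - rad S n x| < δ}

theorem ZC_closed (S : Set ℕ) (f : C(X1 S, UnitAddCircle)) (x : X1 S) (δ : ℝ) (N : ℕ) :
    IsClosed (ZC S f x δ N) := by
  have h1 : ZC S f x δ N = {y | ‖f y - f x‖ ≤ δ} ∩
      ⋂ n, {y | n < N → |rad S n y - rad S n x| ≤ δ} := by
    ext y
    simp only [ZC, Set.mem_ofPred_eq, Set.mem_inter_iff, Set.mem_iInter]
  rw [h1]
  refine (isClosed_le (f.continuous.sub continuous_const).norm continuous_const).inter
    (isClosed_iInter fun n => ?_)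
  by_cases hn : n < N
  · have h2 : {y | n < N → |rad S n y - rad S n x| ≤ δ} = {y | |rad S n y - rad S n x| ≤ δ} := by
      ext y
      simp [hn]
    rw [h2]
    exact isClosed_le ((cont_rad S n).sub continuous_const).abs continuous_const
  · have h2 : {y | n < N → |rad S n y - rad S n x| ≤ δ} = Set.univ := by
      ext y
      simp [hn]
    rw [h2]
    exact isClosed_univ

theorem ZO_open (S : Set ℕ) (f : C(X1 S, UnitAddCircle)) (x : X1 S) (δ : ℝ) (N : ℕ) :
    IsOpen (ZO S f x δ N) := by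
  have h1 : ZO S f x δ N = {y | ‖f y - f x‖ < δ} ∩
      ⋂ n ∈ Finset.range N, {y | |rad S n y - rad S n x| < δ} := by
    ext y
    simp only [ZO, Set.mem_ofPred_eq, Set.mem_inter_iff, Set.mem_iInter, Finset.mem_range]
  rw [h1]
  refine (isOpen_lt (f.continuous.sub continuous_const).norm continuous_const).inter
    (isOpen_biInter_finset fun n _ => ?_)
  exact isOpen_lt ((cont_rad S n).sub continuous_const).abs continuous_const

theorem ZO_sub (S : Set ℕ) (f : C(X1 S, UnitAddCircle)) (x : X1 S) (δ : ℝ) (N : ℕ) :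
    ZO S f x δ N ⊆ ZC S f x δ N := fun _ h => ⟨h.1.le, fun n hn => (h.2 n hn).le⟩

theorem mem_ZO (S : Set ℕ) (f : C(X1 S, UnitAddCircle)) (x : X1 S) {δ : ℝ} (hδ : 0 < δ) (N : ℕ) :
    x ∈ ZO S f x δ N := by
  refine ⟨?_, fun n _ => ?_⟩
  · rw [sub_self, norm_zero]
    exact hδ
  · rw [sub_self, abs_zero]
    exact hδ

/-- a good choice of the size -/
structure Good (S : Set ℕ) (f : C(X1 S, UnitAddCircle)) (x : X1 S) (δ : ℝ) (N : ℕ) : Prop where
  pos : 0 < δ
  half : δ < 1 / 2
  cir : f x ≠ 0 → δ < ‖f x‖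
  rd : ∀ n < N, rad S n x ≠ 1 → δ < 1 - rad S n x

theorem rad_le {S : Set ℕ} (y : X1 S) (n : ℕ) : rad S n y ≤ 1 := by
  rw [rad_eq]
  exact ((par y).2.1 n).2.2

theorem good_exists (S : Set ℕ) (f : C(X1 S, UnitAddCircle)) (x : X1 S) (N : ℕ) {ε : ℝ}
    (hε : 0 < ε) : ∃ δ, Good S f x δ N ∧ δ < ε := by
  have h1 : ∀ᶠ δ in nhdsWithin (0 : ℝ) (Set.Ioi 0), δ < 1 / 2 :=
    Filter.Eventually.filter_mono nhdsWithin_le_nhds (gt_mem_nhds (by norm_num))
  have h2 : ∀ᶠ δ in nhdsWithin (0 : ℝ) (Set.Ioi 0), f x ≠ 0 → δ < ‖f x‖ := by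
    by_cases h : f x = 0
    · exact Filter.Eventually.of_forall fun δ h' => absurd h h'
    · have := Filter.Eventually.filter_mono (nhdsWithin_le_nhds (s := Set.Ioi (0 : ℝ)))
        (gt_mem_nhds (norm_pos_iff.2 h))
      exact this.mono fun δ hδ _ => hδ
  have h3 : ∀ᶠ δ in nhdsWithin (0 : ℝ) (Set.Ioi 0), ∀ n ∈ Finset.range N, rad S n x ≠ 1 →
      δ < 1 - rad S n x := by
    rw [Filter.eventually_all_finset]
    intro n _
    by_cases h : rad S n x = 1
    · exact Filter.Eventually.of_forall fun δ h' => absurd h h'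
    · have h4 : 0 < 1 - rad S n x := sub_pos.2 (lt_of_le_of_ne (rad_le x n) h)
      have := Filter.Eventually.filter_mono (nhdsWithin_le_nhds (s := Set.Ioi (0 : ℝ)))
        (gt_mem_nhds h4)
      exact this.mono fun δ hδ _ => hδ
  have h4 : ∀ᶠ δ in nhdsWithin (0 : ℝ) (Set.Ioi 0), δ < ε :=
    Filter.Eventually.filter_mono nhdsWithin_le_nhds (gt_mem_nhds hε)
  have h5 : ∀ᶠ δ in nhdsWithin (0 : ℝ) (Set.Ioi 0), 0 < δ := self_mem_nhdsWithin
  obtain ⟨δ, ha, hb, hc, hd, he⟩ := (h1.and (h2.and (h3.and (h4.and h5)))).exists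
  exact ⟨δ, ⟨he, ha, hb, fun n hn => hc n (Finset.mem_range.2 hn)⟩, hd⟩

/-- The difference of the two neighbourhoods is small. -/
theorem cf_diff {S : Set ℕ} {f : C(X1 S, UnitAddCircle)}
    (hf : ∀ (a : Pm) (h : a ∈ K1 S), f (pt1 S a h) = a.1) {x : X1 S} {δ : ℝ} {N : ℕ}
    (h : Good S f x δ N) : CF S (ZC S f x δ N \ ZO S f x δ N) := by
  let V : Set UnitAddCircle := {f x + (δ : UnitAddCircle), f x - (δ : UnitAddCircle), 0}
  have hV : V.Finite := Set.toFinite _
  let R : Set ℝ := insert 1 (⋃ n ∈ Finset.range N, {rad S n x + δ, rad S n x - δ})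
  have hR : R.Finite := by
    refine Set.Finite.insert _ ?_
    exact Set.Finite.biUnion (Finset.range N).finite_toSet fun n _ => Set.toFinite _
  have key : ∀ y ∈ ZC S f x δ N \ ZO S f x δ N, (par y).1 ∈ V ∧
      ∀ m, ((par y).2.1 m : ℝ) ∈ R := by
    rintro y ⟨hy1, hy2⟩
    have hfy : f y = (par y).1 := by rw [← hf (par y) (par_mem y), pt1_par]
    -- a bad radius
    have hbad : ∀ n < N, |rad S n y - rad S n x| = δ → rad S n y ≠ 1 := by
      intro n hn h1 h2
      by_cases h3 : rad S n x = 1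
      · rw [h2, h3, sub_self, abs_zero] at h1
        exact h.pos.ne h1
      · have h4 := h.rd n hn h3
        rw [h2, abs_of_nonneg (sub_nonneg.2 (rad_le x n))] at h1
        linarith
    have hy3 : ‖f y - f x‖ = δ ∨ ∃ n < N, |rad S n y - rad S n x| = δ := by
      by_contra h1
      push Not at h1
      apply hy2
      refine ⟨lt_of_le_of_ne hy1.1 h1.1, fun n hn => lt_of_le_of_ne (hy1.2 n hn) (h1.2 n hn)⟩
    by_cases hall : ∀ n, (par y).2.1 n = 1
    · have h1 : ‖f y - f x‖ = δ := by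
        rcases hy3 with h1 | ⟨n, hn, h1⟩
        · exact h1
        · exact absurd (by rw [rad_eq, hall n]; rfl) (hbad n hn h1)
      refine ⟨?_, fun m => ?_⟩
      · rw [← hfy]
        rcases two_pts _ _ h1 with h2 | h2
        · exact Or.inl h2
        · exact Or.inr (Or.inl h2)
      · rw [hall m]
        exact Or.inl rfl
    · push Not at hall
      obtain ⟨n, hn⟩ := hall
      obtain ⟨hz, h2⟩ := ((par_mem y).2 n).resolve_left hn
      refine ⟨by rw [hz]; exact Or.inr (Or.inr rfl), fun m => ?_⟩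
      by_cases hmn : m = n
      · subst hmn
        rcases hy3 with h1 | ⟨k, hk, h1⟩
        · exfalso
          rw [hfy, hz, zero_sub, norm_neg] at h1
          by_cases h3 : f x = 0
          · rw [h3, norm_zero] at h1
            exact h.pos.ne h1
          · exact (h.cir h3).ne h1.symm
        · have h3 := hbad k hk h1
          have h4 : k = m := by
            by_contra hkm
            apply h3
            rw [rad_eq, (h2 k hkm).1]
            rfl
          subst h4
          right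
          rw [← rad_eq]
          refine Set.mem_biUnion (x := k) (Finset.mem_coe.2 (Finset.mem_range.2 hk)) ?_
          rcases (abs_eq h.pos.le).1 h1 with h5 | h5
          · left
            linarith
          · right
            change rad S k y = _
            linarith
      · rw [(h2 m hmn).1]
        exact Or.inl rfl
  intro i
  rcases Nat.eq_zero_or_pos i with hi | hi
  · subst hi
    refine (hV.image (co 1)).subset ?_
    rintro _ ⟨y, hy, rfl⟩
    refine ⟨(par y).1, (key y hy).1, ?_⟩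
    simp only
    rw [← par_eq y, Phi_apply]
    rfl
  · obtain ⟨n, rfl⟩ : ∃ n, i = n + 1 := ⟨i - 1, by omega⟩
    refine (Set.Finite.image2 (fun (r : ℝ) (w : UnitAddCircle) =>
      ((1 / 2 : ℝ) ^ (n + 1)) • co r w) hR (fin_roots (M_pos n) hV)).subset ?_
    rintro _ ⟨y, hy, rfl⟩
    refine ⟨((par y).2.1 n : ℝ), (key y hy).2 n, (par y).2.2 n, ?_, (coord_succ y n).symm⟩
    change M n • (par y).2.2 n ∈ V
    rw [((par_mem y).1 n).1]
    exact (key y hy).1

/-- Small neighbourhoods with small boundaries. -/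
theorem small_nbhd (S : Set ℕ) (x : X1 S) {ε : ℝ} (hε : 0 < ε) :
    ∃ U : Set (X1 S), IsOpen U ∧ x ∈ U ∧ U ⊆ Metric.ball x ε ∧ CF S (frontier U) := by
  obtain ⟨f, hf, -⟩ := div1 S
  obtain ⟨N, hN⟩ := exists_pow_lt_of_lt_one (show (0 : ℝ) < ε / 4 by linarith)
    (show (1 / 2 : ℝ) < 1 by norm_num)
  obtain ⟨δ, hg, hδ⟩ := good_exists S f x N (show (0 : ℝ) < ε / 10 by linarith)
  have hZc := ZC_closed S f x δ N
  have hZo := ZO_open S f x δ N
  have hZs := ZO_sub S f x δ N
  have hxZo := mem_ZO S f x hg.pos N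
  have hcf := cf_diff hf hg
  -- connected sets in `ZC` are small
  have hconn : ∀ C : Set (X1 S), IsPreconnected C → x ∈ C → C ⊆ ZC S f x δ N →
      ∀ y ∈ C, dist y x < ε := by
    intro C hC hxC hCZ y hy
    have h1 : dist y.1 x.1 ≤ ε / 2 := by
      rw [BoundedContinuousFunction.dist_le (by linarith)]
      intro i
      rcases Nat.eq_zero_or_pos i with hi | hi
      · subst hi
        have h2 := (hCZ hy).1
        have e1 : ∀ z : X1 S, z.1 0 = co 1 (f z) := by
          intro z
          have : f z = (par z).1 := by rw [← hf (par z) (par_mem z), pt1_par]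
          rw [this, ← par_eq z, Phi_apply]
          rfl
        rw [e1, e1]
        have h3 := dist_co 1 1 (f y) (f x) zero_le_one le_rfl
        rw [sub_self, abs_zero, zero_add] at h3
        linarith
      · obtain ⟨n, rfl⟩ : ∃ n, i = n + 1 := ⟨i - 1, by omega⟩
        by_cases hn : n < N
        · have h2 := coord_small f hf hC hxC hg.pos hg.half n (fun y hy => (hCZ hy).1)
            (fun y hy => (hCZ hy).2 n hn) y hy
          linarith
        · have h2 : ∀ z : X1 S, ‖z.1 (n + 1)‖ ≤ (1 / 2 : ℝ) ^ N := by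
            intro z
            rw [← par_eq z, Phi_apply]
            refine (norm_crd_le' _ _).trans ?_
            exact pow_le_pow_of_le_one (by norm_num) (by norm_num) (by omega)
          have h3 := dist_le_norm_add_norm (y.1 (n + 1)) (x.1 (n + 1))
          have h4 := h2 y
          have h5 := h2 x
          linarith
    have h2 : dist y x = dist y.1 x.1 := rfl
    rw [h2]
    linarith
  -- a clopen subset of `ZC`
  have hcZ : CompactSpace (ZC S f x δ N) := isCompact_iff_compactSpace.1 hZc.isCompact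
  let x' : ZC S f x δ N := ⟨x, hZs hxZo⟩
  have hcc := connectedComponent_eq_iInter_isClopen x'
  have hne : Nonempty { s : Set (ZC S f x δ N) // IsClopen s ∧ x' ∈ s } :=
    ⟨⟨Set.univ, isClopen_univ, Set.mem_univ _⟩⟩
  obtain ⟨V, hV⟩ := exists_subset_nhds_of_compactSpace
    (V := fun s : { s : Set (ZC S f x δ N) // IsClopen s ∧ x' ∈ s } => s.1)
    (U := Subtype.val ⁻¹' Metric.ball x ε) (by
      intro s t
      exact ⟨⟨s.1 ∩ t.1, s.2.1.inter t.2.1, s.2.2, t.2.2⟩, Set.inter_subset_left,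
        Set.inter_subset_right⟩) (fun s => s.2.1.isClosed) (by
      intro z hz
      rw [← hcc] at hz
      refine (Metric.isOpen_ball.preimage continuous_subtype_val).mem_nhds ?_
      refine hconn (Subtype.val '' connectedComponent x')
        (isPreconnected_connectedComponent.image _ continuous_subtype_val.continuousOn)
        ⟨x', mem_connectedComponent, rfl⟩ ?_ z.1 ⟨z, hz, rfl⟩
      rintro _ ⟨w, -, rfl⟩
      exact w.2)
  obtain ⟨V, hVc, hxV⟩ := V
  simp only at hV
  obtain ⟨O, hO, hO2⟩ := isOpen_induced_iff.1 hVc.isOpen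
  have hVcl : IsClosed (Subtype.val '' V : Set (X1 S)) :=
    hZc.isClosedEmbedding_subtypeVal.isClosedMap V hVc.isClosed
  have hU : (Subtype.val '' V : Set (X1 S)) ∩ ZO S f x δ N = O ∩ ZO S f x δ N := by
    ext y
    constructor
    · rintro ⟨⟨z, hz, rfl⟩, hy⟩
      rw [← hO2] at hz
      exact ⟨hz, hy⟩
    · rintro ⟨h1, h2⟩
      refine ⟨⟨⟨y, hZs h2⟩, ?_, rfl⟩, h2⟩
      rw [← hO2]
      exact h1
  have hUo : IsOpen ((Subtype.val '' V : Set (X1 S)) ∩ ZO S f x δ N) := by
    rw [hU]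
    exact hO.inter hZo
  refine ⟨(Subtype.val '' V : Set (X1 S)) ∩ ZO S f x δ N, hUo, ⟨⟨x', hxV, rfl⟩, hxZo⟩, ?_, ?_⟩
  · rintro y ⟨⟨z, hz, rfl⟩, -⟩
    exact hV hz
  · refine hcf.mono ?_
    rw [hUo.frontier_eq]
    rintro y ⟨hy1, hy2⟩
    have h1 : y ∈ (Subtype.val '' V : Set (X1 S)) :=
      closure_minimal Set.inter_subset_left hVcl hy1
    refine ⟨?_, fun h2 => hy2 ⟨h1, h2⟩⟩
    obtain ⟨z, -, rfl⟩ := h1
    exact z.2

end Pool.Agent.Q38.LC
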