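import Pool.Agent.Q38.LC.Seq

/-!
# A one-dimensional compact connected space (MP_f0c992_lc): connectedness
-/

set_option autoImplicit false

namespace Pool.Agent.Q38.LC

open BoundedContinuousFunction Pool.Agent.W361.LQ
open Pool.Agent.W654.LQ.Dense

/-- A point of the solenoid or of a leg. -/
theorem cases1 {S : Set ℕ} {a : Pm} (ha : a ∈ K1 S) :
    (∀ n, a.2.1 n = 1) ∨ ∃ n q r, n ∉ S ∧ a = pl n q r ∧ r ≠ 1 := by
  by_cases h : ∃ n, a.2.1 n ≠ 1
  · obtain ⟨n, hn⟩ := h
    right
    obtain ⟨hz, h2⟩ := (ha.2 n).resolve_left hn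
    obtain ⟨j, hj⟩ := angle n 0 one_pos (a.2.2 n) (by rw [(ha.1 n).1, hz]; rfl)
    refine ⟨n, j, a.2.1 n, fun hnS => hn ((ha.1 n).2 hnS), ?_, hn⟩
    refine Prod.ext hz (Prod.ext ?_ ?_)
    · funext m
      change a.2.1 m = if m = n then a.2.1 n else 1
      split_ifs with h
      · rw [h]
      · exact (h2 m h).1
    · funext m
      change a.2.2 m = if m = n then ((j / M n : ℝ) : UnitAddCircle) else 0
      split_ifs with h
      · rw [h, hj, zero_add]
      · exact (h2 m h).2
  · push Not at h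
    exact Or.inl h

/-- approximation of points of the solenoid by points of the path -/
theorem dist_path {S : Set ℕ} {a : Pm} (ha : a ∈ K1 S) (h1 : ∀ n, a.2.1 n = 1) (k : ℕ) :
    ∃ t : ℝ, dist (Phi (ps t)) (Phi a) ≤ (1 / 2 : ℝ) ^ k := by
  obtain ⟨t, j, ht0, ht, hj, -⟩ := param S a ha
  obtain ⟨m, hm⟩ := Nat.chineseRemainderOfFinset j M (Finset.range k)
    (fun i _ => Nat.succ_ne_zero _) (fun i _ i' _ hii => Nat.coprime_fermatNumber_fermatNumber hii)
  refine ⟨t + m, ?_⟩
  rw [BoundedContinuousFunction.dist_le (by positivity)]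
  intro i
  change dist (crd (ps (t + m)) i) (crd a i) ≤ _
  rcases Nat.lt_or_ge k i with h | h
  · -- far coordinates
    have h1 := norm_crd_le' (ps (t + m)) i
    have h2 := norm_crd_le' a i
    have h3 : ((1 : ℝ) / 2) ^ i ≤ (1 / 2) ^ (k + 1) :=
      pow_le_pow_of_le_one (by norm_num) (by norm_num) h
    have h4 : ((1 : ℝ) / 2) ^ (k + 1) = (1 / 2) ^ k / 2 := by rw [pow_succ]; ring
    rw [dist_eq_norm]
    refine (norm_sub_le _ _).trans ?_
    linarith
  · have hz : crd (ps (t + m)) i = crd a i := by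
      unfold crd
      split_ifs with h0
      · have e : (ps (t + m)).1 = a.1 := by
          change ((t + m : ℝ) : UnitAddCircle) = a.1
          rw [AddCircle.coe_add, Pool.Agent.W381.LQ.coe_nat, add_zero, ht]
        rw [e]
      · have e1 : (ps (t + m)).2.2 (i - 1) = a.2.2 (i - 1) := by
          have hM := Pool.Agent.W381.LQ.M_pos (i - 1)
          change (((t + m) / M (i - 1) : ℝ) : UnitAddCircle) = a.2.2 (i - 1)
          rw [hj (i - 1)]
          have h5 := hm (i - 1) (Finset.mem_range.2 (by omega))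
          have h6 := (Nat.modEq_iff_dvd.1 h5)
          obtain ⟨c, hc⟩ := h6
          have h7 : (j (i - 1) : ℝ) - m = M (i - 1) * c := by exact_mod_cast hc
          have h8 : (t + m) / M (i - 1) = (t + j (i - 1)) / M (i - 1) - (c : ℝ) := by
            field_simp
            linarith
          rw [h8, AddCircle.coe_sub]
          have h9 : ((c : ℝ) : UnitAddCircle) = 0 := by
            rw [AddCircle.coe_eq_zero_iff]
            exact ⟨c, by simp⟩
          rw [h9, sub_zero]
        have e0 : (ps (t + m)).2.1 (i - 1) = a.2.1 (i - 1) := (h1 (i - 1)).symm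
        rw [e1, e0]
    rw [hz, dist_self]
    positivity

/-- the path in the space -/
noncomputable def pth (S : Set ℕ) (t : ℝ) : X1 S := pt1 S (ps t) (ps_mem t)

theorem cont_pth (S : Set ℕ) : Continuous (pth S) :=
  Continuous.subtype_mk (Pool.Agent.W764.LQ.continuous_Phi.comp cont_ps) _

theorem mem_cl (S : Set ℕ) {a : Pm} (ha : a ∈ K1 S) (h1 : ∀ n, a.2.1 n = 1) :
    pt1 S a ha ∈ closure (Set.range (pth S)) := by
  rw [Metric.mem_closure_iff]
  intro ε hε
  obtain ⟨k, hk⟩ := exists_pow_lt_of_lt_one hε (show (1 / 2 : ℝ) < 1 by norm_num)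
  obtain ⟨t, ht⟩ := dist_path ha h1 k
  refine ⟨pth S t, ⟨t, rfl⟩, ?_⟩
  rw [dist_comm]
  exact lt_of_le_of_lt ht hk

instance connected1 (S : Set ℕ) : ConnectedSpace (X1 S) := by
  have hc : IsPreconnected (closure (Set.range (pth S))) :=
    (isPreconnected_range (cont_pth S)).closure
  have h0 : pth S 0 ∈ closure (Set.range (pth S)) := subset_closure ⟨0, rfl⟩
  have : PreconnectedSpace (X1 S) := by
    refine ⟨isPreconnected_of_forall (pth S 0) ?_⟩
    rintro ⟨_, a, ha, rfl⟩ -
    rcases cases1 ha with h1 | ⟨n, q, r, hn, rfl, hr⟩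
    · exact ⟨_, Set.subset_univ _, h0, mem_cl S ha h1, hc⟩
    · have hp : IsPreconnected (Set.range fun r : unitInterval => pt1 S (pl n q r) (pl_mem hn q r)) :=
        isPreconnected_range (Continuous.subtype_mk
          (Pool.Agent.W764.LQ.continuous_Phi.comp (cont_pl n q)) _)
      have h2 : pt1 S (pl n q 1) (pl_mem hn q 1) ∈ closure (Set.range (pth S)) := by
        refine mem_cl S _ fun m => ?_
        change (if m = n then (1 : unitInterval) else 1) = 1
        split_ifs <;> rfl
      refine ⟨closure (Set.range (pth S)) ∪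
        Set.range fun r : unitInterval => pt1 S (pl n q r) (pl_mem hn q r),
        Set.subset_univ _, Or.inl h0, Or.inr ⟨r, rfl⟩, ?_⟩
      exact IsPreconnected.union _ h2 ⟨1, rfl⟩ hc hp
  exact { toNonempty := ⟨pth S 0⟩ }

/-- The space is not a point. -/
theorem nontriv (S : Set ℕ) : ∃ x y : X1 S, x ≠ y := by
  refine ⟨pth S 0, pth S (1 / 2), fun h => ?_⟩
  have h1 : Phi (ps 0) = Phi (ps (1 / 2)) := congrArg Subtype.val h
  have h2 := (Pool.Agent.W168.LQ.main _ _ h1).1
  have h3 : ((0 : ℝ) : UnitAddCircle) = ((1 / 2 : ℝ) : UnitAddCircle) := h2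
  have h4 : ‖((1 / 2 : ℝ) : UnitAddCircle)‖ = |(1 / 2 : ℝ)| :=
    Pool.Agent.W168.LQ.nrm (by rw [abs_of_pos] <;> norm_num)
  rw [← h3, AddCircle.coe_zero, norm_zero] at h4
  norm_num at h4

end Pool.Agent.Q38.LC
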