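import Pool.Agent.W361.LQ.Fin
import Pool.Agent.W764.LQ.CPT
import Pool.Agent.W168.LQ.Inj
import Pool.Agent.W395.LQ.Div
import Pool.Agent.W381.LQ.Non

/-!
# A one-dimensional compact connected space (MP_f0c992_lc): definitions

The space `X1 S` is a solenoid with circle map `z` and with roots `w n`, `M n • w n = z`; for
every `n` outside `S` a finite star is attached to the points `z = 0`, `w m = 0` (`m ≠ n`) of the
solenoid.
-/

set_option autoImplicit false

namespace Pool.Agent.Q38.LC

open BoundedContinuousFunction Pool.Agent.W361.LQ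

/-- The parameters of the points of the space. -/
def K1 (S : Set ℕ) : Set Pm :=
  {a | a ∈ K S ∧ ∀ n, a.2.1 n = 1 ∨ (a.1 = 0 ∧ ∀ m, m ≠ n → a.2.1 m = 1 ∧ a.2.2 m = 0)}

/-- The space. -/
def X1 (S : Set ℕ) : Set (ℕ →ᵇ ℝ × ℝ × ℝ) := Phi '' K1 S

/-- The point with parameter `a`. -/
noncomputable def pt1 (S : Set ℕ) (a : Pm) (h : a ∈ K1 S) : X1 S := ⟨Phi a, a, h, rfl⟩

theorem K1_sub (S : Set ℕ) : K1 S ⊆ K S := fun _ h => h.1

theorem X1_sub (S : Set ℕ) : X1 S ⊆ X S := Set.image_mono (K1_sub S)

theorem isClosed_K1 (S : Set ℕ) : IsClosed (K1 S) := by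
  have h1 : K1 S = K S ∩ ⋂ n, ({a : Pm | a.2.1 n = 1} ∪
      ({a : Pm | a.1 = 0} ∩ ⋂ m, {a : Pm | m ≠ n → a.2.1 m = 1 ∧ a.2.2 m = 0})) := by
    ext a
    simp only [K1, Set.mem_ofPred_eq, Set.mem_iInter, Set.mem_inter_iff, Set.mem_union]
  rw [h1]
  have c1 : ∀ n, Continuous (fun a : Pm => a.2.2 n) := fun n =>
    (continuous_apply n).comp (continuous_snd.comp continuous_snd)
  have c2 : ∀ n, Continuous (fun a : Pm => a.2.1 n) := fun n =>
    (continuous_apply n).comp (continuous_fst.comp continuous_snd)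
  refine (Pool.Agent.W764.LQ.isClosed_K S).inter (isClosed_iInter fun n => ?_)
  refine (isClosed_eq (c2 n) continuous_const).union ?_
  refine (isClosed_eq continuous_fst continuous_const).inter (isClosed_iInter fun m => ?_)
  by_cases hm : m = n
  · have h2 : {a : Pm | m ≠ n → a.2.1 m = 1 ∧ a.2.2 m = 0} = Set.univ := by
      ext a
      simp [hm]
    rw [h2]
    exact isClosed_univ
  · have h2 : {a : Pm | m ≠ n → a.2.1 m = 1 ∧ a.2.2 m = 0} =
        {a : Pm | a.2.1 m = 1} ∩ {a : Pm | a.2.2 m = 0} := by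
      ext a
      simp [hm]
    rw [h2]
    exact (isClosed_eq (c2 m) continuous_const).inter (isClosed_eq (c1 m) continuous_const)

theorem isCompact_X1 (S : Set ℕ) : IsCompact (X1 S) :=
  (isClosed_K1 S).isCompact.image Pool.Agent.W764.LQ.continuous_Phi

instance (S : Set ℕ) : CompactSpace (X1 S) := isCompact_iff_compactSpace.1 (isCompact_X1 S)

/-- The map to the circle and its roots. -/
theorem div1 (S : Set ℕ) : ∃ f : C(X1 S, UnitAddCircle),
    (∀ (a : Pm) (h : a ∈ K1 S), f (pt1 S a h) = a.1) ∧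
      ∀ n ∈ S, ∃ g : C(X1 S, UnitAddCircle), ∀ x, M n • g x = f x := by
  obtain ⟨f, hf1, hf2⟩ := Pool.Agent.W395.LQ.Div.main Pool.Agent.W764.LQ.main
    Pool.Agent.W168.LQ.main S
  let i : C(X1 S, X S) := ⟨Set.inclusion (X1_sub S), continuous_inclusion (X1_sub S)⟩
  refine ⟨f.comp i, fun a h => hf1 a h.1, fun n hn => ?_⟩
  obtain ⟨g, hg⟩ := hf2 n hn
  exact ⟨g.comp i, fun x => hg (i x)⟩

/-! ## The paths -/

/-- the path of parameters in the solenoid -/
noncomputable def ps (t : ℝ) : Pm :=
  ((t : UnitAddCircle), fun _ => 1, fun j => ((t / M j : ℝ) : UnitAddCircle))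

/-- the leg of the star `n` belonging to `q / M n` -/
noncomputable def pl (n q : ℕ) (r : unitInterval) : Pm :=
  (0, fun j => if j = n then r else 1,
    fun j => if j = n then ((q / M n : ℝ) : UnitAddCircle) else 0)

theorem ps_mem {S : Set ℕ} (t : ℝ) : ps t ∈ K1 S := by
  refine ⟨fun j => ⟨Pool.Agent.W381.LQ.nsmul_div (M j) (Pool.Agent.W381.LQ.M_pos j) t,
    fun _ => rfl⟩, fun n => Or.inl rfl⟩

theorem pl_mem {S : Set ℕ} {n : ℕ} (hn : n ∉ S) (q : ℕ) (r : unitInterval) : pl n q r ∈ K1 S := by
  refine ⟨fun j => ⟨?_, fun hj => ?_⟩, fun j => ?_⟩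
  · change M j • (if j = n then ((q / M n : ℝ) : UnitAddCircle) else 0) = 0
    split_ifs with h
    · subst h
      rw [Pool.Agent.W381.LQ.nsmul_div (M j) (Pool.Agent.W381.LQ.M_pos j),
        Pool.Agent.W381.LQ.coe_nat]
    · exact smul_zero _
  · have : j ≠ n := fun h => hn (h ▸ hj)
    exact if_neg this
  · by_cases h : j = n
    · right
      subst h
      exact ⟨rfl, fun m hm => ⟨if_neg hm, if_neg hm⟩⟩
    · left
      exact if_neg h

theorem cont_ps : Continuous fun t : ℝ => ps t := by
  refine (AddCircle.continuous_mk' (1 : ℝ)).prodMk (continuous_const.prodMk ?_)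
  refine continuous_pi fun j => ?_
  exact (AddCircle.continuous_mk' (1 : ℝ)).comp (continuous_id.div_const _)

theorem cont_pl (n q : ℕ) : Continuous fun r : unitInterval => pl n q r := by
  refine continuous_const.prodMk ((continuous_pi fun j => ?_).prodMk continuous_const)
  by_cases h : j = n
  · simp only [h, if_true]
    exact continuous_id
  · simp only [h, if_false]
    exact continuous_const

theorem Phi_pl_zero (n q q' : ℕ) : Phi (pl n q 0) = Phi (pl n q' 0) := by
  ext1 i
  rw [Phi_apply, Phi_apply]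
  unfold crd
  split_ifs with h0
  · rfl
  · by_cases hi : i - 1 = n
    · have e1 : ∀ s, (((pl n s 0).2.1 (i - 1) : unitInterval) : ℝ) = 0 := by
        intro s
        change (((if i - 1 = n then 0 else 1 : unitInterval)) : ℝ) = 0
        rw [if_pos hi]; rfl
      rw [e1, e1]
      unfold co
      simp
    · have e1 : ∀ s, (pl n s 0).2.2 (i - 1) = 0 := by
        intro s
        exact if_neg hi
      rw [e1, e1]
      rfl

/-- The point of the solenoid path at time `t` is near the end of a leg. -/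
theorem dist_ps (n k t q : ℕ) (ht : ∀ j < k, j ≠ n → M j ∣ t) (hq : t % M n = q) :
    dist (Phi (ps t)) (Phi (pl n q 1)) ≤ (1 / 2 : ℝ) ^ k := by
  rw [BoundedContinuousFunction.dist_le (by positivity)]
  intro i
  change dist (crd (ps t) i) (crd (pl n q 1) i) ≤ _
  rcases Nat.lt_or_ge k i with h | h
  · -- far coordinates
    have h1 := norm_crd_le' (ps t) i
    have h2 := norm_crd_le' (pl n q 1) i
    have h3 : ((1 : ℝ) / 2) ^ i ≤ (1 / 2) ^ (k + 1) :=
      pow_le_pow_of_le_one (by norm_num) (by norm_num) h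
    have h4 : ((1 : ℝ) / 2) ^ (k + 1) = (1 / 2) ^ k / 2 := by rw [pow_succ]; ring
    rw [dist_eq_norm]
    refine (norm_sub_le _ _).trans ?_
    linarith
  · have hz : crd (ps t) i = crd (pl n q 1) i := by
      unfold crd
      split_ifs with h0
      · have e : (ps t).1 = (pl n q 1).1 := by
          change (((t : ℕ) : ℝ) : UnitAddCircle) = 0
          rw [Pool.Agent.W381.LQ.coe_nat]
        rw [e]
      · have e0 : (pl n q 1).2.1 (i - 1) = 1 := by
          change (if i - 1 = n then (1 : unitInterval) else 1) = 1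
          split_ifs <;> rfl
        have e1 : (ps t).2.2 (i - 1) = (pl n q 1).2.2 (i - 1) := by
          have hM := Pool.Agent.W381.LQ.M_pos (i - 1)
          by_cases hi : i - 1 = n
          · change ((((t : ℕ) : ℝ) / M (i - 1) : ℝ) : UnitAddCircle) =
              if i - 1 = n then ((q / M n : ℝ) : UnitAddCircle) else 0
            rw [if_pos hi, hi]
            rw [hi] at hM
            have e2 : ((t : ℕ) : ℝ) / M n = ((t / M n : ℕ) : ℝ) + (q : ℝ) / M n := by
              have e4 : (t : ℝ) = M n * ((t / M n : ℕ) : ℝ) + q := by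
                have := Nat.div_add_mod t (M n)
                rw [hq] at this
                exact_mod_cast this.symm
              nth_rewrite 1 [e4]
              field_simp
            rw [e2, AddCircle.coe_add, Pool.Agent.W381.LQ.coe_nat, zero_add]
          · change ((((t : ℕ) : ℝ) / M (i - 1) : ℝ) : UnitAddCircle) =
              if i - 1 = n then ((q / M n : ℝ) : UnitAddCircle) else 0
            rw [if_neg hi]
            obtain ⟨m, hm⟩ := ht (i - 1) (by omega) hi
            have e3 : ((t : ℕ) : ℝ) / M (i - 1) = (m : ℝ) := by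
              rw [hm]; push_cast
              field_simp
            rw [e3, Pool.Agent.W381.LQ.coe_nat]
        rw [e1, e0]
        rfl
    rw [hz, dist_self]
    positivity

theorem non1 (S : Set ℕ) (f g : C(X1 S, UnitAddCircle)) (n : ℕ)
    (hf : ∀ (a : Pm) (h : a ∈ K1 S), f (pt1 S a h) = a.1) (hg : ∀ x, M n • g x = f x) :
    n ∈ S := by
  by_contra hn
  have hM : (0 : ℝ) < M n := Pool.Agent.W381.LQ.M_pos n
  -- torsion valued functions are constant
  have tc : ∀ {Y : Type} [TopologicalSpace Y] [PreconnectedSpace Y] (u : Y → UnitAddCircle),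
      Continuous u → (∀ t, M n • u t = 0) → ∀ s t, u s = u t := by
    intro Y _ _ u hu huM s t
    have hloc : IsLocallyConstant u := by
      rw [IsLocallyConstant.iff_eventually_eq]
      intro x
      have h1 : ∀ᶠ y in nhds x, dist (u y) (u x) < 1 / (M n : ℝ) :=
        (hu.tendsto x).eventually (Metric.ball_mem_nhds _ (by positivity))
      filter_upwards [h1] with y hy
      rw [dist_eq_norm] at hy
      have h2 : M n • (u y - u x) = 0 := by rw [nsmul_sub, huM, huM, sub_self]
      exact sub_eq_zero.1 (tor h2 hy)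
    exact hloc.apply_eq_of_preconnectedSpace s t
  -- the path in the solenoid
  let p : ℝ → X1 S := fun t => pt1 S (ps t) (ps_mem t)
  have hp : Continuous p := Continuous.subtype_mk
    (Pool.Agent.W764.LQ.continuous_Phi.comp cont_ps) _
  have hform : ∀ t : ℝ, g (p t) - g (p 0) = ((t / M n : ℝ) : UnitAddCircle) := by
    intro t
    have h1 := tc (fun t : ℝ => g (p t) - ((t / M n : ℝ) : UnitAddCircle))
      ((g.continuous.comp hp).sub ((AddCircle.continuous_mk' (1 : ℝ)).comp
        (continuous_id.div_const _))) (fun t => by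
        change M n • (g (p t) - ((t / M n : ℝ) : UnitAddCircle)) = 0
        rw [nsmul_sub, hg, hf, Pool.Agent.W381.LQ.nsmul_div (M n) hM]
        exact sub_self _) t 0
    simp only [zero_div, AddCircle.coe_zero, sub_zero] at h1
    rw [← h1]
    abel
  -- the legs
  have hleg : ∀ q : ℕ, g (pt1 S (pl n q 1) (pl_mem hn q 1)) = g (p 0) := by
    have h1 : ∀ q : ℕ, g (pt1 S (pl n q 1) (pl_mem hn q 1)) =
        g (pt1 S (pl n q 0) (pl_mem hn q 0)) := by
      intro q
      exact tc (fun r : unitInterval => g (pt1 S (pl n q r) (pl_mem hn q r)))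
        (g.continuous.comp (Continuous.subtype_mk
          (Pool.Agent.W764.LQ.continuous_Phi.comp (cont_pl n q)) _)) (fun r => by
        rw [hg, hf]
        rfl) 1 0
    have h2 : ∀ q : ℕ, pt1 S (pl n q 0) (pl_mem hn q 0) = pt1 S (pl n 0 0) (pl_mem hn 0 0) :=
      fun q => Subtype.ext (Phi_pl_zero n q 0)
    have h3 : pt1 S (pl n 0 1) (pl_mem hn 0 1) = p 0 := by
      refine Subtype.ext ?_
      change Phi _ = Phi _
      congr 1
      refine Prod.ext ?_ (Prod.ext ?_ ?_)
      · change (0 : UnitAddCircle) = ((0 : ℝ) : UnitAddCircle)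
        rw [AddCircle.coe_zero]
      · funext j
        change (if j = n then (1 : unitInterval) else 1) = 1
        split_ifs <;> rfl
      · funext j
        change (if j = n then (((0 : ℕ) / M n : ℝ) : UnitAddCircle) else 0) =
          ((0 / M j : ℝ) : UnitAddCircle)
        rw [zero_div, AddCircle.coe_zero]
        split_ifs
        · simp
        · rfl
    intro q
    rw [h1, h2, ← h1, h3]
  -- the special times
  have huc := CompactSpace.uniformContinuous_of_continuous g.continuous
  rw [Metric.uniformContinuous_iff] at huc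
  obtain ⟨δ, hδ, hd⟩ := huc (1 / (M n : ℝ)) (by positivity)
  obtain ⟨k, hk⟩ := exists_pow_lt_of_lt_one hδ (show (1 / 2 : ℝ) < 1 by norm_num)
  let t := Pool.Agent.W381.LQ.tk n k
  have hdist : dist (p t) (pt1 S (pl n (t % M n) 1) (pl_mem hn (t % M n) 1)) < δ := by
    refine lt_of_le_of_lt ?_ hk
    refine dist_ps n k t _ (fun j hj hjn => ?_) rfl
    change M j ∣ Pool.Agent.W381.LQ.tk n k
    unfold Pool.Agent.W381.LQ.tk
    refine Finset.dvd_prod_of_mem _ ?_
    rw [Finset.mem_erase, Finset.mem_range]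
    exact ⟨hjn, hj⟩
  have hk2 := hd hdist
  rw [hleg, dist_eq_norm, hform] at hk2
  have h3 : M n • (((t : ℝ) / M n : ℝ) : UnitAddCircle) = 0 := by
    rw [Pool.Agent.W381.LQ.nsmul_div (M n) hM, Pool.Agent.W381.LQ.coe_nat]
  have h4 := tor h3 hk2
  rw [AddCircle.coe_eq_zero_iff] at h4
  obtain ⟨m, hm⟩ := h4
  have h5 : ((t : ℕ) : ℝ) = (M n : ℝ) * m := by
    have : (m : ℝ) = ((t : ℕ) : ℝ) / M n := by simpa using hm
    rw [this]; field_simp
  have h6 : ((t : ℕ) : ℤ) = (M n : ℤ) * m := by exact_mod_cast h5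
  have h7 : M n ∣ t := by
    have : (M n : ℤ) ∣ ((t : ℕ) : ℤ) := ⟨m, h6⟩
    exact_mod_cast this
  have h8 : Nat.Coprime (M n) t := by
    change Nat.Coprime (M n) (Pool.Agent.W381.LQ.tk n k)
    unfold Pool.Agent.W381.LQ.tk
    refine Nat.Coprime.prod_right fun j hj => ?_
    have hne : n ≠ j := (Finset.ne_of_mem_erase hj).symm
    exact Nat.coprime_fermatNumber_fermatNumber hne
  have h9 : M n = 1 := Nat.eq_one_of_dvd_coprimes h8 dvd_rfl h7
  have : 2 ≤ M n := by
    unfold M
    have : 0 < 2 ^ 2 ^ n := by positivity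
    omega
  omega

end Pool.Agent.Q38.LC
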