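import Pool.Agent.Q38.LC.Conn

/-!
# A one-dimensional compact connected space (MP_f0c992_lc): a basis with small boundaries
-/

set_option autoImplicit false

namespace Pool.Agent.Q38.LC

open BoundedContinuousFunction Pool.Agent.W361.LQ
open Pool.Agent.W654.LQ.Dense

/-! ## Sets all of whose coordinates take finitely many values -/

/-- All coordinates take finitely many values on `T`. -/
def CF (S : Set ℕ) (T : Set (X1 S)) : Prop :=
  ∀ i : ℕ, ((fun x : X1 S => x.1 i) '' T).Finite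

theorem CF.mono {S : Set ℕ} {T T' : Set (X1 S)} (h : CF S T) (h' : T' ⊆ T) : CF S T' :=
  fun i => (h i).subset (Set.image_mono h')

theorem CF.biUnion {S : Set ℕ} {ι : Type} {s : Finset ι} {T : ι → Set (X1 S)}
    (h : ∀ j ∈ s, CF S (T j)) : CF S (⋃ j ∈ s, T j) := by
  intro i
  rw [Set.image_iUnion₂]
  exact Set.Finite.biUnion s.finite_toSet fun j hj => h j hj i

theorem cont_coord (S : Set ℕ) (i : ℕ) : Continuous fun x : X1 S => x.1 i :=
  (BoundedContinuousFunction.lipschitz_eval_const i).continuous.comp continuous_subtype_val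

theorem CF.td {S : Set ℕ} {T : Set (X1 S)} (h : CF S T) : IsTotallyDisconnected T := by
  intro C hC hpre x hx y hy
  refine Subtype.ext (BoundedContinuousFunction.ext fun i => ?_)
  by_contra hne
  have h1 : IsPreconnected ((fun x : X1 S => x.1 i) '' C) :=
    hpre.image _ (cont_coord S i).continuousOn
  have h2 := h1.infinite_of_nontrivial ⟨_, ⟨x, hx, rfl⟩, _, ⟨y, hy, rfl⟩, hne⟩
  exact h2 ((h i).subset (Set.image_mono hC))

/-! ## The circle -/

theorem nrm_le_of_smul {m : ℕ} (hm : 0 < m) {v : UnitAddCircle} {δ : ℝ}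
    (h : ‖m • v‖ ≤ δ) (hv : ‖v‖ < 1 / (2 * m)) : ‖v‖ ≤ δ / m := by
  obtain ⟨s, rfl, hs⟩ := lift v
  have hm' : (0 : ℝ) < m := by exact_mod_cast hm
  rw [← hs] at hv ⊢
  have h1 : |(m : ℝ) * s| ≤ 1 / 2 := by
    rw [abs_mul, abs_of_pos hm']
    rw [lt_div_iff₀ (by positivity)] at hv
    nlinarith
  rw [← AddCircle.coe_nsmul, nsmul_eq_mul, Pool.Agent.W168.LQ.nrm h1, abs_mul,
    abs_of_pos hm'] at h
  rw [le_div_iff₀ hm']
  linarith

theorem nrm_half {m : ℕ} (hm : 0 < m) {v : UnitAddCircle} (hv : ‖v‖ = 1 / (2 * m)) :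
    ‖m • v‖ = 1 / 2 := by
  obtain ⟨s, rfl, hs⟩ := lift v
  have hm' : (0 : ℝ) < m := by exact_mod_cast hm
  rw [← hs] at hv
  have h1 : |(m : ℝ) * s| = 1 / 2 := by
    rw [abs_mul, abs_of_pos hm', hv]
    field_simp
  rw [← AddCircle.coe_nsmul, nsmul_eq_mul, Pool.Agent.W168.LQ.nrm h1.le, h1]

theorem two_pts (z c : UnitAddCircle) {δ : ℝ} (h : ‖z - c‖ = δ) :
    z ∈ ({c + (δ : UnitAddCircle), c - (δ : UnitAddCircle)} : Set UnitAddCircle) := by
  obtain ⟨s, hs, hs2⟩ := lift (z - c)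
  rw [h] at hs2
  have h0 : 0 ≤ δ := by rw [← hs2]; exact abs_nonneg _
  have hz : z = c + (s : UnitAddCircle) := by rw [hs]; abel
  rcases abs_eq h0 |>.1 hs2 with h1 | h1
  · left
    rw [hz, h1]
  · right
    change z = _
    rw [hz, h1, AddCircle.coe_neg, sub_eq_add_neg]

theorem fin_roots {m : ℕ} (hm : 0 < m) {V : Set UnitAddCircle} (hV : V.Finite) :
    {w : UnitAddCircle | m • w ∈ V}.Finite := by
  refine Set.Finite.preimage' (f := fun w : UnitAddCircle => m • w) hV fun v _ => ?_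
  rcases Set.eq_empty_or_nonempty ((fun w : UnitAddCircle => m • w) ⁻¹' {v}) with h | ⟨w0, h0⟩
  · rw [h]
    exact Set.finite_empty
  · have h1 : (fun w : UnitAddCircle => m • w) ⁻¹' {v} ⊆
        (fun u => u + w0) '' {u : UnitAddCircle | m • u = 0} := by
      intro w hw
      refine ⟨w - w0, ?_, by simp⟩
      change m • (w - w0) = 0
      have e1 : m • w = v := hw
      have e2 : m • w0 = v := h0
      rw [nsmul_sub, e1, e2, sub_self]
    exact ((AddCircle.finite_torsion (1 : ℝ) hm).image _).subset h1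

/-! ## The angles as functions on the space -/

/-- the embedding of the circle in the plane -/
noncomputable def ee (w : UnitAddCircle) : ℝ × ℝ := (‖w‖, ‖w + ((1 / 4 : ℝ) : UnitAddCircle)‖)

theorem ee_emb : Topology.IsClosedEmbedding ee := by
  refine Continuous.isClosedEmbedding ?_ ?_
  · exact continuous_norm.prodMk ((continuous_id.add continuous_const).norm)
  · intro u v h
    exact Pool.Agent.W168.LQ.key (congrArg Prod.fst h) (congrArg Prod.snd h)

/-- the radius with number `n` -/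
noncomputable def rad (S : Set ℕ) (n : ℕ) (y : X1 S) : ℝ := 2 ^ (n + 1) * (y.1 (n + 1)).1

theorem cont_rad (S : Set ℕ) (n : ℕ) : Continuous (rad S n) :=
  continuous_const.mul (continuous_fst.comp (cont_coord S (n + 1)))

/-- a parameter of the point -/
noncomputable def par {S : Set ℕ} (y : X1 S) : Pm := y.2.choose

theorem par_mem {S : Set ℕ} (y : X1 S) : par y ∈ K1 S := y.2.choose_spec.1

theorem par_eq {S : Set ℕ} (y : X1 S) : Phi (par y) = y.1 := y.2.choose_spec.2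

theorem pt1_par {S : Set ℕ} (y : X1 S) : pt1 S (par y) (par_mem y) = y := Subtype.ext (par_eq y)

theorem coord_succ {S : Set ℕ} (y : X1 S) (n : ℕ) :
    y.1 (n + 1) = ((1 / 2 : ℝ) ^ (n + 1)) • co ((par y).2.1 n : ℝ) ((par y).2.2 n) := by
  rw [← par_eq y, Phi_apply]
  rfl

theorem rad_eq {S : Set ℕ} (y : X1 S) (n : ℕ) : rad S n y = ((par y).2.1 n : ℝ) := by
  unfold rad
  rw [coord_succ]
  change 2 ^ (n + 1) * ((1 / 2 : ℝ) ^ (n + 1) * ((par y).2.1 n : ℝ)) = _
  rw [← mul_assoc, ← mul_pow]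
  norm_num

theorem cont_ang (S : Set ℕ) (n : ℕ) :
    ContinuousOn (fun y : X1 S => (par y).2.2 n) {y | rad S n y ≠ 0} := by
  rw [ee_emb.isInducing.continuousOn_iff]
  have h1 : Set.EqOn (ee ∘ fun y : X1 S => (par y).2.2 n)
      (fun y : X1 S => ((y.1 (n + 1)).2.1 / (y.1 (n + 1)).1, (y.1 (n + 1)).2.2 / (y.1 (n + 1)).1))
      {y | rad S n y ≠ 0} := by
    intro y hy
    have hr : ((par y).2.1 n : ℝ) ≠ 0 := by
      rw [← rad_eq]
      exact hy
    simp only [Function.comp, ee]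
    rw [coord_succ]
    have h2 : ((1 / 2 : ℝ) ^ (n + 1)) ≠ 0 := by positivity
    refine Prod.ext ?_ ?_
    · change _ = ((1 / 2 : ℝ) ^ (n + 1) * (((par y).2.1 n : ℝ) * _)) /
        ((1 / 2 : ℝ) ^ (n + 1) * ((par y).2.1 n : ℝ))
      field_simp
    · change _ = ((1 / 2 : ℝ) ^ (n + 1) * (((par y).2.1 n : ℝ) * _)) /
        ((1 / 2 : ℝ) ^ (n + 1) * ((par y).2.1 n : ℝ))
      field_simp
  refine ContinuousOn.congr ?_ h1
  have h3 : ∀ y ∈ {y | rad S n y ≠ 0}, (y.1 (n + 1)).1 ≠ 0 := by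
    intro y hy h4
    apply hy
    unfold rad
    rw [h4, mul_zero]
  have h4 := (cont_coord S (n + 1)).continuousOn (s := {y | rad S n y ≠ 0})
  exact (h4.snd.fst.div h4.fst h3).prodMk (h4.snd.snd.div h4.fst h3)

/-! ## Connected sets of small radii and small circle coordinates -/

/-- the angles on a connected set -/
theorem ang_small {S : Set ℕ} (f : C(X1 S, UnitAddCircle))
    (hf : ∀ (a : Pm) (h : a ∈ K1 S), f (pt1 S a h) = a.1) {C : Set (X1 S)}
    (hC : IsPreconnected C) {x : X1 S} (hx : x ∈ C) {δ : ℝ} (hδ : δ < 1 / 2) (n : ℕ)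
    (h1 : ∀ y ∈ C, ‖f y - f x‖ ≤ δ) (h2 : ∀ y ∈ C, rad S n y ≠ 0) :
    ∀ y ∈ C, ‖(par y).2.2 n - (par x).2.2 n‖ ≤ δ := by
  have hM : 0 < M n := M_pos n
  have hf' : ∀ y : X1 S, M n • (par y).2.2 n = f y := by
    intro y
    rw [(par_mem y).1 n |>.1, ← hf (par y) (par_mem y), pt1_par]
  let φ : X1 S → ℝ := fun y => ‖(par y).2.2 n - (par x).2.2 n‖
  have hφ : ContinuousOn φ C := by
    exact (((cont_ang S n).mono h2).sub continuousOn_const).norm
  have h3 : ∀ y ∈ C, ‖M n • ((par y).2.2 n - (par x).2.2 n)‖ ≤ δ := by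
    intro y hy
    rw [nsmul_sub, hf', hf']
    exact h1 y hy
  have h4 : ∀ y ∈ C, φ y < 1 / (2 * M n) := by
    intro y hy
    by_contra h5
    push Not at h5
    have h6 : φ x = 0 := by simp [φ]
    have h7 := hC.intermediate_value hx hy hφ
    have h8 : (1 / (2 * M n) : ℝ) ∈ Set.Icc (φ x) (φ y) := by
      rw [h6]
      exact ⟨by positivity, h5⟩
    obtain ⟨c, hc, hc2⟩ := h7 h8
    have h9 := nrm_half hM hc2
    have h10 := h3 c hc
    rw [h9] at h10
    linarith
  intro y hy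
  have h5 := nrm_le_of_smul hM (h3 y hy) (h4 y hy)
  have hδ0 : 0 ≤ δ := (norm_nonneg _).trans (h1 y hy)
  refine h5.trans (div_le_self hδ0 ?_)
  exact_mod_cast hM

theorem norm_co_le' (r : ℝ) (w : UnitAddCircle) (h0 : 0 ≤ r) : ‖co r w‖ ≤ r := by
  have h2 := norm_circle_le w
  have h3 := norm_circle_le (w + ((1 / 4 : ℝ) : UnitAddCircle))
  have h4 := norm_nonneg w
  have h5 := norm_nonneg (w + ((1 / 4 : ℝ) : UnitAddCircle))
  simp only [co, Prod.norm_def, Real.norm_eq_abs, max_le_iff]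
  refine ⟨by rw [abs_of_nonneg h0], ?_, ?_⟩
  · rw [abs_of_nonneg (mul_nonneg h0 h4)]
    nlinarith
  · rw [abs_of_nonneg (mul_nonneg h0 h5)]
    nlinarith

/-- the coordinates on a connected set -/
theorem coord_small {S : Set ℕ} (f : C(X1 S, UnitAddCircle))
    (hf : ∀ (a : Pm) (h : a ∈ K1 S), f (pt1 S a h) = a.1) {C : Set (X1 S)}
    (hC : IsPreconnected C) {x : X1 S} (hx : x ∈ C) {δ : ℝ} (hδ0 : 0 < δ) (hδ : δ < 1 / 2) (n : ℕ)
    (h1 : ∀ y ∈ C, ‖f y - f x‖ ≤ δ) (h2 : ∀ y ∈ C, |rad S n y - rad S n x| ≤ δ) :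
    ∀ y ∈ C, dist (y.1 (n + 1)) (x.1 (n + 1)) ≤ 5 * δ := by
  intro y hy
  have hy2 := h2 y hy
  have e1 : ‖(1 / 2 : ℝ) ^ (n + 1)‖ ≤ 1 := by
    rw [norm_pow]
    refine pow_le_one₀ (norm_nonneg _) ?_
    norm_num
  rcases lt_or_ge (rad S n x) (2 * δ) with h3 | h3
  · have h4 : ∀ z : X1 S, ‖z.1 (n + 1)‖ ≤ rad S n z := by
      intro z
      rw [coord_succ, norm_smul, rad_eq]
      have h5 := norm_co_le' ((par z).2.1 n : ℝ) ((par z).2.2 n) ((par z).2.1 n).2.1
      have h6 := norm_nonneg (co ((par z).2.1 n : ℝ) ((par z).2.2 n))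
      nlinarith
    have h5 := h4 x
    have h6 := h4 y
    have h7 := dist_le_norm_add_norm (y.1 (n + 1)) (x.1 (n + 1))
    rw [abs_le] at hy2
    linarith
  · have h4 : ∀ y ∈ C, rad S n y ≠ 0 := by
      intro z hz h5
      have := h2 z hz
      rw [h5, abs_le] at this
      linarith
    have h5 := ang_small f hf hC hx hδ n h1 h4 y hy
    rw [coord_succ, coord_succ, dist_smul₀]
    have h6 := dist_co ((par y).2.1 n : ℝ) ((par x).2.1 n : ℝ) ((par y).2.2 n) ((par x).2.2 n)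
      ((par x).2.1 n).2.1 ((par x).2.1 n).2.2
    rw [← rad_eq, ← rad_eq] at h6
    have h7 := mul_le_mul_of_nonneg_right e1 (dist_nonneg
      (x := co ((par y).2.1 n : ℝ) ((par y).2.2 n)) (y := co ((par x).2.1 n : ℝ) ((par x).2.2 n)))
    rw [one_mul] at h7
    rw [rad_eq, rad_eq] at h6
    rw [rad_eq, rad_eq] at hy2
    linarith

end Pool.Agent.Q38.LC
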