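import Pool.Agent.Q38.LC.Bas
import Pool.Agent.W952.LP.Defs

/-!
# A one-dimensional compact connected space (MP_f0c992_lc): the dimension
-/

set_option autoImplicit false

namespace Pool.Agent.Q38.LC

open BoundedContinuousFunction Pool.Agent.W361.LQ TopologicalSpace
open Pool.Agent.W952.LP (DimLE)

theorem td_frontier {S : Set ℕ} {U : Set (X1 S)} (h : CF S (frontier U)) :
    HasSmallInductiveDimensionLT (frontier U) 1 := by
  have h1 : CompactSpace (frontier U) := isCompact_iff_compactSpace.1 isClosed_frontier.isCompact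
  have h2 : TotallyDisconnectedSpace (frontier U) := totallyDisconnectedSpace_subtype_iff.2 h.td
  exact hasSmallInductiveDimensionLT_one_iff.2 isTopologicalBasis_isClopen

theorem ind_le (S : Set ℕ) : HasSmallInductiveDimensionLE (X1 S) 1 := by
  refine .succ 1 {U : Set (X1 S) | IsOpen U ∧ CF S (frontier U)} ?_ (fun U hU => td_frontier hU.2)
  refine isTopologicalBasis_of_isOpen_of_nhds (fun U hU => hU.1) fun x U hx hU => ?_
  obtain ⟨ε, hε, hb⟩ := Metric.isOpen_iff.1 hU x hx
  obtain ⟨V, h1, h2, h3, h4⟩ := small_nbhd S x hε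
  exact ⟨V, ⟨h1, h4⟩, h2, h3.trans hb⟩

theorem not_ind_lt (S : Set ℕ) : ¬ HasSmallInductiveDimensionLT (X1 S) 1 := by
  rw [hasSmallInductiveDimensionLT_one_iff]
  intro h
  obtain ⟨x, y, hxy⟩ := nontriv S
  obtain ⟨V, hV, hxV, hVs⟩ := h.exists_subset_of_mem_open (show x ∈ ({y}ᶜ : Set (X1 S)) from hxy)
    isOpen_compl_singleton
  rcases isClopen_iff.1 hV with h1 | h1
  · rw [h1] at hxV
    exact hxV
  · rw [h1] at hVs
    exact hVs (Set.mem_univ y) rfl

theorem ind_eq (S : Set ℕ) : smallInductiveDimension (X1 S) = 1 := by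
  have := smallInductiveDimension_eq 1 (ind_le S) (not_ind_lt S)
  exact_mod_cast this

/-- A connected space with two points has covering dimension at least one. -/
theorem not_dim_zero (S : Set ℕ) : ¬ DimLE (X1 S) 0 := by
  intro h
  obtain ⟨x, y, hxy⟩ := nontriv S
  obtain ⟨κ, hκ, V, hVo, hVc, hVs, hVn⟩ := h Bool (fun b => if b then {x}ᶜ else {y}ᶜ) (by
    intro b
    cases b <;> exact isOpen_compl_singleton) (by
    rw [Set.eq_univ_iff_forall]
    intro z
    rw [Set.mem_iUnion]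
    by_cases hz : z = x
    · exact ⟨false, by subst hz; exact hxy⟩
    · exact ⟨true, hz⟩)
  have hx : x ∈ ⋃ k, V k := by rw [hVc]; trivial
  obtain ⟨k, hk⟩ := Set.mem_iUnion.1 hx
  have hdisj : ∀ k' z, z ∈ V k → z ∈ V k' → k' = k := by
    intro k' z h1 h2
    have h3 := hVn z
    rw [zero_add, Set.ncard_le_one] at h3
    exact h3 k' h2 k h1
  have hclosed : IsClosed (V k) := by
    have h1 : V k = (⋃ k' ∈ {k' | k' ≠ k}, V k')ᶜ := by
      ext z
      simp only [Set.mem_compl_iff, Set.mem_iUnion, Set.mem_ofPred_eq, not_exists]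
      constructor
      · intro h1 k' h2 h3
        exact h2 (hdisj k' z h1 h3)
      · intro h1
        have hz : z ∈ ⋃ k, V k := by rw [hVc]; trivial
        obtain ⟨k', hk'⟩ := Set.mem_iUnion.1 hz
        by_contra h2
        exact h1 k' (fun h3 => h2 (h3 ▸ hk')) hk'
    rw [h1]
    exact (isOpen_biUnion fun k' _ => hVo k').isClosed_compl
  rcases isClopen_iff.1 ⟨hclosed, hVo k⟩ with h1 | h1
  · rw [h1] at hk
    exact hk
  · obtain ⟨b, hb⟩ := hVs k
    rw [h1] at hb
    cases b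
    · exact hb (Set.mem_univ y) rfl
    · exact hb (Set.mem_univ x) rfl

theorem dim_le_one (S : Set ℕ) : DimLE (X1 S) 1 := by
  classical
  intro ι _ U hU hcov
  have h1 : ∀ x : X1 S, ∃ i B, IsOpen B ∧ x ∈ B ∧ B ⊆ U i ∧ CF S (frontier B) := by
    intro x
    have hx : x ∈ ⋃ i, U i := by rw [hcov]; trivial
    obtain ⟨i, hi⟩ := Set.mem_iUnion.1 hx
    obtain ⟨ε, hε, hb⟩ := Metric.isOpen_iff.1 (hU i) x hi
    obtain ⟨V, h1, h2, h3, h4⟩ := small_nbhd S x hε
    exact ⟨i, V, h1, h2, h3.trans hb, h4⟩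
  choose i B hB hxB hBU hCF using h1
  obtain ⟨t, ht⟩ := isCompact_univ.elim_finite_subcover B hB
    (fun x _ => Set.mem_iUnion.2 ⟨x, hxB x⟩)
  -- the closed totally disconnected set
  let F : Set (X1 S) := ⋃ x ∈ t, frontier (B x)
  have hFc : IsClosed F := by
    exact t.finite_toSet.isClosed_biUnion fun x _ => isClosed_frontier
  have hFcf : CF S F := CF.biUnion fun x _ => hCF x
  have hF1 : CompactSpace F := isCompact_iff_compactSpace.1 hFc.isCompact
  have hF2 : TotallyDisconnectedSpace F := totallyDisconnectedSpace_subtype_iff.2 hFcf.td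
  -- disjoint open sets outside
  let e := t.equivFin
  let Bk : Fin t.card → Set (X1 S) := fun k => B (e.symm k).1
  let V : Fin t.card → Set (X1 S) := fun k => Bk k \ ⋃ j ∈ {j | j < k}, closure (Bk j)
  have hVo : ∀ k, IsOpen (V k) := by
    intro k
    exact (hB _).sdiff ((Set.toFinite {j | j < k}).isClosed_biUnion fun j _ => isClosed_closure)
  have hVd : ∀ k l z, z ∈ V k → z ∈ V l → k = l := by
    have : ∀ k l z, k < l → z ∈ V k → z ∈ V l → False := by
      intro k l z hkl h1 h2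
      exact h2.2 (Set.mem_biUnion (show k ∈ {j | j < l} from hkl) (subset_closure h1.1))
    intro k l z h1 h2
    rcases lt_trichotomy k l with h | h | h
    · exact (this k l z h h1 h2).elim
    · exact h
    · exact (this l k z h h2 h1).elim
  have hVc : ∀ z, z ∉ F → ∃ k, z ∈ V k := by
    intro z hz
    have h1 : ∃ k, z ∈ Bk k := by
      have h2 := ht (Set.mem_univ z)
      obtain ⟨x, hx, hzx⟩ := Set.mem_iUnion₂.1 h2
      exact ⟨e ⟨x, hx⟩, by simpa [Bk] using hzx⟩
    obtain ⟨k, hk, hmin⟩ := Set.exists_min_image {k : Fin t.card | z ∈ Bk k} id (Set.toFinite _) h1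
    refine ⟨k, hk, fun h2 => ?_⟩
    obtain ⟨j, hj, hzj⟩ := Set.mem_iUnion₂.1 h2
    have hzj2 : z ∉ Bk j := fun h3 => absurd (hmin j h3) (not_le.2 hj)
    apply hz
    refine Set.mem_biUnion (show (e.symm j).1 ∈ t from (e.symm j).2) ?_
    rw [(hB _).frontier_eq]
    exact ⟨hzj, hzj2⟩
  -- disjoint clopen sets in F
  let O : ι → Opens F := fun i => ⟨Subtype.val ⁻¹' U i, (hU i).preimage continuous_subtype_val⟩
  have hO : IsOpenCover O := by
    rw [IsOpenCover, eq_top_iff]
    intro z _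
    have hz : z.1 ∈ ⋃ i, U i := by rw [hcov]; trivial
    obtain ⟨i, hi⟩ := Set.mem_iUnion.1 hz
    exact Opens.mem_iSup.2 ⟨i, hi⟩
  obtain ⟨n, W, hW1, hW2, hW3⟩ := hO.exists_finite_nonempty_disjoint_clopen_cover
  choose hWne r hr using hW1
  let A : Fin n → Set (X1 S) := fun j => Subtype.val '' (W j : Set F)
  have hAc : ∀ j, IsClosed (A j) := fun j =>
    hFc.isClosedEmbedding_subtypeVal.isClosedMap _ (W j).isClopen.isClosed
  have hAne : ∀ j, (A j).Nonempty := by
    intro j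
    refine Set.Nonempty.image _ ?_
    rw [Set.nonempty_iff_ne_empty]
    intro h
    exact hWne j (SetLike.coe_injective h)
  have hAU : ∀ j, A j ⊆ U (r j) := by
    rintro j _ ⟨z, hz, rfl⟩
    exact hr j hz
  have hAd : ∀ j k, j ≠ k → ∀ z, z ∈ A j → z ∉ A k := by
    rintro j k hjk _ ⟨z, hz, rfl⟩ ⟨w, hw, hwz⟩
    have hwz' : w = z := Subtype.ext hwz
    subst hwz'
    have h1 := hW3 hjk
    have h2 : Disjoint (W j) (W k) := h1
    have h3 : Disjoint (W j : Set F) (W k : Set F) := by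
      rw [Set.disjoint_iff_inter_eq_empty]
      have h4 := disjoint_iff.1 h2
      have h5 : ((W j ⊓ W k : Clopens F) : Set F) = ((⊥ : Clopens F) : Set F) := by rw [h4]
      simpa using h5
    exact Set.disjoint_left.1 h3 hz hw
  let G : Fin n → Set (X1 S) := fun j =>
    U (r j) ∩ ⋂ k ∈ {k | k ≠ j}, {y | Metric.infDist y (A j) < Metric.infDist y (A k)}
  have hGo : ∀ j, IsOpen (G j) := by
    intro j
    refine (hU _).inter ((Set.toFinite {k | k ≠ j}).isOpen_biInter fun k _ => ?_)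
    exact isOpen_lt (Metric.continuous_infDist_pt _) (Metric.continuous_infDist_pt _)
  have hGd : ∀ j k z, z ∈ G j → z ∈ G k → j = k := by
    intro j k z h1 h2
    by_contra hjk
    have h3 := Set.mem_iInter₂.1 h1.2 k (fun h => hjk h.symm)
    have h4 := Set.mem_iInter₂.1 h2.2 j hjk
    exact lt_asymm (show Metric.infDist z (A j) < Metric.infDist z (A k) from h3) h4
  have hGA : ∀ j, A j ⊆ G j := by
    intro j z hz
    refine ⟨hAU j hz, Set.mem_iInter₂.2 fun k hk => ?_⟩
    have h1 : Metric.infDist z (A j) = 0 := Metric.infDist_zero_of_mem hz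
    have h2 : 0 < Metric.infDist z (A k) :=
      ((hAc k).notMem_iff_infDist_pos (hAne k)).1 (hAd j k (fun h => hk h.symm) z hz)
    change Metric.infDist z (A j) < Metric.infDist z (A k)
    rw [h1]
    exact h2
  refine ⟨Fin t.card ⊕ Fin n, inferInstance, Sum.elim V G, ?_, ?_, ?_, ?_⟩
  · rintro (k | k)
    · exact hVo k
    · exact hGo k
  · rw [Set.eq_univ_iff_forall]
    intro z
    by_cases hz : z ∈ F
    · have h1 := hW2 (Set.mem_univ (⟨z, hz⟩ : F))
      obtain ⟨j, hj⟩ := Set.mem_iUnion.1 h1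
      exact Set.mem_iUnion.2 ⟨Sum.inr j, hGA j ⟨⟨z, hz⟩, hj, rfl⟩⟩
    · obtain ⟨k, hk⟩ := hVc z hz
      exact Set.mem_iUnion.2 ⟨Sum.inl k, hk⟩
  · rintro (k | k)
    · exact ⟨i (e.symm k).1, fun z hz => hBU _ hz.1⟩
    · exact ⟨r k, fun z hz => hz.1⟩
  · intro z
    have h1 : {k | z ∈ Sum.elim V G k} ⊆ Sum.inl '' {k | z ∈ V k} ∪ Sum.inr '' {k | z ∈ G k} := by
      rintro (k | k) hk
      · exact Or.inl ⟨k, hk, rfl⟩
      · exact Or.inr ⟨k, hk, rfl⟩
    refine (Set.ncard_le_ncard h1 (Set.toFinite _)).trans ((Set.ncard_union_le _ _).trans ?_)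
    have h2 : (Sum.inl '' {k | z ∈ V k} : Set (Fin t.card ⊕ Fin n)).ncard ≤ 1 := by
      rw [Set.ncard_le_one]
      rintro _ ⟨a, ha, rfl⟩ _ ⟨b, hb, rfl⟩
      rw [hVd a b z ha hb]
    have h3 : (Sum.inr '' {k | z ∈ G k} : Set (Fin t.card ⊕ Fin n)).ncard ≤ 1 := by
      rw [Set.ncard_le_one]
      rintro _ ⟨a, ha, rfl⟩ _ ⟨b, hb, rfl⟩
      rw [hGd a b z ha hb]
    omega

end Pool.Agent.Q38.LC
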