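import Pool.Agent.Q38.LC.DimF
import Pool.Agent.W923.LQ.Val
import Pool.Agent.W641.LQ.APX
import Pool.Agent.W19.LQ.FP
import Pool.Agent.W89.LQ.Lt
import Pool.Agent.W918.LQ.CX
import Pool.Agent.W565.LQ.Near
import Pool.Agent.W311.LQ.Init
import Pool.Agent.W924.LQ.BACK
import Pool.Agent.W605.LQ.Forth
import Pool.Agent.W436.LQ.PI
import Pool.Agent.W162.LQ.Tab
import Pool.Agent.W952.LP.Low

/-!
# A one-dimensional compact connected space (MP_f0c992_lc): assembly
-/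

set_option autoImplicit false

namespace Pool.Agent.Q38.LC

open BoundedContinuousFunction Pool.Agent.W361.LQ Pool.Agent.Helper227 Pool.Agent.H685R3
open Pool.Agent.W952.LP (zero DimLE Presented CompIn ratVal)

/-- the code of the approximate distance -/
def Gc (c c' : Cd) (k : ℕ) : ℕ := Nat.pair (F c c' k) (2 ^ k - 1)

theorem p_Gc : Primrec fun x : Cd × Cd × ℕ => Gc x.1 x.2.1 x.2.2 := by
  refine Primrec₂.natPair.comp Pool.Agent.W19.LQ.main (Primrec.nat_sub.comp ?_ (Primrec.const 1))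
  exact Pool.Agent.W366.LP.two_pow.comp (Primrec.snd.comp Primrec.snd)

theorem ratVal_Gc (c c' : Cd) (k : ℕ) : ratVal (Gc c c' k) = (F c c' k : ℝ) / 2 ^ k := by
  unfold ratVal Gc
  rw [Nat.unpair_pair]
  have h : ((2 ^ k - 1 : ℕ) : ℝ) = 2 ^ k - 1 := by
    rw [Nat.cast_sub (Nat.one_le_two_pow)]
    push_cast
    ring
  simp only
  rw [h, sub_add_cancel]

/-- The space is presented relative to the oracle. -/
theorem presented1 {D : ℕ → Bool} {T : ℕ → ℕ → Bool} {S : Set ℕ}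
    (hT : TLe (fun m => T m.unpair.1 m.unpair.2) D) (hS : ∀ n, n ∉ S ↔ ∃ y, T n y = true) :
    Presented D (X1 S) := by
  refine ⟨inferInstance, rfl, inferInstance, fun k => pt1 S (pm (sq1 T k)) (mem_K1 S T hS k), ?_,
    fun m : ℕ => Gc (sq1 T m.unpair.1) (sq1 T m.unpair.2.unpair.1) m.unpair.2.unpair.2,
    comp' (G := Gc) p_Gc (si_sq1 D T hT), fun i j k => ?_⟩
  · rw [Metric.denseRange_iff]
    rintro ⟨_, a, ha, rfl⟩ r hr
    obtain ⟨k, hk⟩ := dense1 S T hS a ha r hr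
    exact ⟨k, hk⟩
  · simp only [Nat.unpair_pair]
    rw [ratVal_Gc, abs_sub_comm, one_div, inv_pow, ← one_div]
    exact Pool.Agent.W641.LQ.apx Pool.Agent.W923.LQ.Val.main (sq1 T i) (sq1 T j) k

/-- rounding of `2 ^ k * ratVal u` -/
def rq (k u : ℕ) : ℕ :=
  (2 ^ (k + 1) * u.unpair.1 + (u.unpair.2 + 1)) / (2 * (u.unpair.2 + 1))

/-- the argument of the approximation with two more digits -/
def ag (m : ℕ) : ℕ :=
  Nat.pair m.unpair.1 (Nat.pair m.unpair.2.unpair.1 (m.unpair.2.unpair.2 + 2))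

/-- rounding of rational approximations -/
def rnd (f : ℕ → ℕ) (m : ℕ) : ℕ := rq m.unpair.2.unpair.2 (f (ag m))

theorem p_u1 : Primrec fun m : ℕ => m.unpair.1 := Primrec.fst.comp Primrec.unpair

theorem p_u2 : Primrec fun m : ℕ => m.unpair.2 := Primrec.snd.comp Primrec.unpair

theorem p_ag : Primrec ag := by
  have h2 : Primrec fun m : ℕ => m.unpair.2.unpair.2 + 2 :=
    Primrec.succ.comp (Primrec.succ.comp (p_u2.comp p_u2))
  exact Primrec₂.natPair.comp p_u1 (Primrec₂.natPair.comp (p_u1.comp p_u2) h2)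

theorem p_rq : Primrec₂ rq := by
  have h5 : Primrec fun x : ℕ × ℕ => x.2.unpair.2 + 1 :=
    Primrec.succ.comp (p_u2.comp Primrec.snd)
  have h6 : Primrec fun x : ℕ × ℕ => 2 ^ (x.1 + 1) :=
    Pool.Agent.W366.LP.two_pow.comp (Primrec.succ.comp Primrec.fst)
  have h7 : Primrec fun x : ℕ × ℕ => x.2.unpair.1 := p_u1.comp Primrec.snd
  have h8 : Primrec fun x : ℕ × ℕ => 2 ^ (x.1 + 1) * x.2.unpair.1 + (x.2.unpair.2 + 1) :=
    Primrec.nat_add.comp (Primrec.nat_mul.comp h6 h7) h5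
  have h9 : Primrec fun x : ℕ × ℕ => 2 * (x.2.unpair.2 + 1) :=
    Primrec.nat_mul.comp (Primrec.const 2) h5
  exact Primrec.nat_div.comp h8 h9

theorem comp_rnd {f : ℕ → ℕ} (hf : Computable f) : Computable (rnd f) :=
  p_rq.to_comp.comp (p_u2.comp p_u2).to_comp (hf.comp p_ag.to_comp)

theorem rnd_spec {f : ℕ → ℕ} {d : ℕ → ℕ → ℝ}
    (h : ∀ i j n : ℕ, |d i j - ratVal (f (Nat.pair i (Nat.pair j n)))| ≤ (1 / 2 : ℝ) ^ n)
    (i j k : ℕ) : |(rnd f (Nat.pair i (Nat.pair j k)) : ℝ) / 2 ^ k - d i j| ≤ 1 / 2 ^ k := by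
  have h1 := h i j (k + 2)
  unfold rnd ag rq
  simp only [Nat.unpair_pair]
  generalize f (Nat.pair i (Nat.pair j (k + 2))) = u at h1
  unfold ratVal at h1
  set a := u.unpair.1
  set b := u.unpair.2
  have h2 : (0 : ℝ) < 2 ^ k := by positivity
  have hb : (0 : ℝ) < (b : ℝ) + 1 := by positivity
  have h3 : ((2 ^ (k + 1) * a + (b + 1)) / (2 * (b + 1)) : ℕ) ≤
      ((2 ^ (k + 1) * a + (b + 1) : ℕ) : ℝ) / ((2 * (b + 1) : ℕ) : ℝ) := Nat.cast_div_le
  have h4 : ((2 ^ (k + 1) * a + (b + 1) : ℕ) : ℝ) / ((2 * (b + 1) : ℕ) : ℝ) <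
      ((2 ^ (k + 1) * a + (b + 1)) / (2 * (b + 1)) : ℕ) + 1 := by
    rw [div_lt_iff₀ (by positivity)]
    have h5 := Nat.lt_mul_div_succ (2 ^ (k + 1) * a + (b + 1)) (show 0 < 2 * (b + 1) by positivity)
    have h6 : (((2 ^ (k + 1) * a + (b + 1)) : ℕ) : ℝ) < ((2 * (b + 1) : ℕ) : ℝ) *
        (((2 ^ (k + 1) * a + (b + 1)) / (2 * (b + 1)) + 1 : ℕ) : ℝ) := by exact_mod_cast h5
    rw [Nat.cast_add_one] at h6
    linarith
  have h5 : ((2 ^ (k + 1) * a + (b + 1) : ℕ) : ℝ) / ((2 * (b + 1) : ℕ) : ℝ) =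
      2 ^ k * ((a : ℝ) / ((b : ℝ) + 1)) + 1 / 2 := by
    push_cast
    rw [pow_succ]
    field_simp
  rw [h5] at h3 h4
  generalize ((2 ^ (k + 1) * a + (b + 1)) / (2 * (b + 1)) : ℕ) = q at h3 h4
  generalize (a : ℝ) / ((b : ℝ) + 1) = r at h1 h3 h4
  have h6 : |(q : ℝ) - 2 ^ k * r| ≤ 1 / 2 := by
    rw [abs_le]
    constructor <;> linarith
  have h7 : |(q : ℝ) / 2 ^ k - r| ≤ (1 / 2) / 2 ^ k := by
    have e : (q : ℝ) / 2 ^ k - r = ((q : ℝ) - 2 ^ k * r) / 2 ^ k := by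
      field_simp
    rw [e, abs_div, abs_of_pos h2]
    exact div_le_div_of_nonneg_right h6 h2.le
  have h8 : (1 / 2 : ℝ) ^ (k + 2) = (1 / 4) / 2 ^ k := by
    rw [pow_add, one_div, inv_pow]
    ring
  rw [h8] at h1
  have h9 : (1 / 2 : ℝ) / 2 ^ k + (1 / 4) / 2 ^ k ≤ 1 / 2 ^ k := by
    rw [← add_div]
    exact div_le_div_of_nonneg_right (by norm_num) h2.le
  have h10 := abs_sub_le ((q : ℝ) / 2 ^ k) r (d i j)
  rw [abs_sub_comm] at h1
  linarith

/-- The space of a nonlow oracle is not computably presented. -/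
theorem not_presented {D : ℕ → Bool} (hD : ¬ TLe (jump D) (jump zero)) {S : Set ℕ}
    (hS : ∀ n, n ∈ S ↔ jump D n = false) {Q : Type} [t : TopologicalSpace Q]
    (hQ : Presented zero Q) : IsEmpty (X1 S ≃ₜ Q) := by
  obtain ⟨m, hm, hcomp, y, hy, g, hg1, hg2⟩ := hQ
  subst hm
  have hgc : Computable g := by
    have h0 : TuringReducible (fun n => Part.some (g n)) (fun _ : ℕ => Part.some 0) := hg1
    exact TuringReducible.partrec_of_const h0
  refine ⟨fun φ => ?_⟩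
  have hcQ : CompactSpace Q := φ.compactSpace
  obtain ⟨f, hf1, hf2⟩ := div1 S
  let f' : C(Q, UnitAddCircle) := ⟨fun q => f (φ.symm q), f.continuous.comp φ.symm.continuous⟩
  obtain ⟨C, d, hC⟩ := Pool.Agent.W311.LQ.main Q y hy f'
  obtain ⟨hL, hG⟩ := Pool.Agent.W89.LQ.Lt.main (fun i j => dist (y i) (y j)) (rnd g)
    (comp_rnd hgc) (rnd_spec hg2)
  have key : ∀ n : ℕ, jump D n = false ↔ ∃ (E : List (ℕ × ℕ)) (e : ℕ),
      Cond (LtY y) (GtY y) C d (M n) E e := by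
    intro n
    constructor
    · intro hn
      obtain ⟨g, hg⟩ := hf2 n ((hS n).2 hn)
      let g' : C(Q, UnitAddCircle) :=
        ⟨fun q => g (φ.symm q), g.continuous.comp φ.symm.continuous⟩
      exact Pool.Agent.W605.LQ.Forth.main Pool.Agent.W565.LQ.Near.main Q y hy f' g' C d (M n)
        (M_pos n) hC fun q => hg (φ.symm q)
    · rintro ⟨E, e, hE⟩
      obtain ⟨g', hg'⟩ := Pool.Agent.W924.LQ.BACK.main Pool.Agent.W565.LQ.Near.main Q y hy f' C d
        (M n) (M_pos n) hC E e hE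
      let g : C(X1 S, UnitAddCircle) := ⟨fun x => g' (φ x), g'.continuous.comp φ.continuous⟩
      refine (hS n).1 (non1 S f g n hf1 fun x => ?_)
      have h3 := hg' (φ x)
      simp only [f', ContinuousMap.coe_mk, Homeomorph.symm_apply_apply] at h3
      exact h3
  refine Pool.Agent.W436.LQ.main D hD ?_
  exact (Pool.Agent.W918.LQ.CX.main (LtY y) (GtY y) hL hG C d).of_eq fun n => (key n).symm

theorem zero_le (X : ℕ → Bool) : TLe zero X := by
  rw [tLe_iff_SI]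
  exact SI.of_prim (Primrec.eq.comp (Primrec.const false) Primrec.snd)

/-- The main theorem for a given nonlow oracle. -/
theorem main {D : ℕ → Bool} (hD : ¬ TLe (jump D) (jump zero)) :
    ∃ (P : Type) (_ : TopologicalSpace P), PolishSpace P ∧ CompactSpace P ∧ ConnectedSpace P ∧
      DimLE P 1 ∧ ¬ DimLE P 0 ∧ smallInductiveDimension P = 1 ∧ Presented D P ∧
      ∀ (Q : Type) [TopologicalSpace Q], Presented zero Q → IsEmpty (P ≃ₜ Q) := by
  obtain ⟨T, hT1, hT2⟩ := Pool.Agent.W162.LQTab.main D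
  refine ⟨X1 {n | jump D n = false}, inferInstance, inferInstance, inferInstance, inferInstance,
    dim_le_one _, not_dim_zero _, ind_eq _, presented1 hT1 fun n => ?_, fun Q _ hQ =>
    not_presented hD (fun n => Iff.rfl) hQ⟩
  rw [← hT2 n]
  simp

end Pool.Agent.Q38.LC
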