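import Pool.Agent.Q38.LC.Defs
import Pool.Agent.W654.LQ.Dense
import Pool.Agent.W585.LQ.NM

/-!
# A one-dimensional compact connected space (MP_f0c992_lc): the dense sequence
-/

set_option autoImplicit false

namespace Pool.Agent.Q38.LC

open BoundedContinuousFunction Pool.Agent.W361.LQ Pool.Agent.Helper227 Pool.Agent.H685R3
open Pool.Agent.W654.LQ.Dense

/-- the first entry with a nonzero second component -/
def fst1 (L : List (ℕ × ℕ)) : ℕ := L.findIdx fun p => decide (p.2 ≠ 0)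

/-- the correction of a code -/
def co1 (c : Cd) : Cd :=
  if fst1 c.2.2 < c.2.2.length then
    (0, c.2.1, (List.range c.2.2.length).map fun m =>
      if m = fst1 c.2.2 then c.2.2.getD m (0, 0) else (0, 0))
  else c

/-- the code of the `k`-th point of the dense sequence -/
def sq1 (T : ℕ → ℕ → Bool) (k : ℕ) : Cd := co1 (sq T k)

theorem rr_one {c : Cd} {n : ℕ} (h : (c.2.2.getD n (0, 0)).2 = 0) : (pm c).2.1 n = 1 := by
  apply Subtype.ext
  show ((rho c n : ℕ) : ℝ) / 2 ^ c.2.1 = 1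
  unfold rho
  rw [h, Nat.zero_min, Nat.sub_zero]
  push_cast
  exact div_self (by positivity)

theorem rr_ne {c : Cd} {n : ℕ} (h : (pm c).2.1 n = 1) : (c.2.2.getD n (0, 0)).2 = 0 := by
  have h1 : ((rho c n : ℕ) : ℝ) / 2 ^ c.2.1 = 1 := congrArg Subtype.val h
  rw [div_eq_one_iff_eq (by positivity)] at h1
  have h2 : rho c n = 2 ^ c.2.1 := by exact_mod_cast h1
  unfold rho at h2
  have h3 : 0 < 2 ^ c.2.1 := by positivity
  omega

theorem ww_zero {c : Cd} {n : ℕ} (h1 : c.1 = 0) (h : (c.2.2.getD n (0, 0)).1 = 0) :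
    (pm c).2.2 n = 0 := by
  change ((((c.1 : ℝ) / 2 ^ c.2.1 + jj c n) / M n : ℝ) : UnitAddCircle) = 0
  unfold jj
  rw [h1, h]
  simp

theorem fst1_lt {L : List (ℕ × ℕ)} (h : fst1 L < L.length) : (L.getD (fst1 L) (0, 0)).2 ≠ 0 := by
  have h1 := List.findIdx_getElem (p := fun p : ℕ × ℕ => decide (p.2 ≠ 0)) (xs := L) (w := h)
  rw [List.getD_eq_getElem?_getD, List.getElem?_eq_getElem h]
  exact of_decide_eq_true h1

theorem fst1_ge {L : List (ℕ × ℕ)} (h : ¬ fst1 L < L.length) (n : ℕ) :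
    (L.getD n (0, 0)).2 = 0 := by
  rcases Nat.lt_or_ge n L.length with hn | hn
  · have h1 : fst1 L = L.length := le_antisymm List.findIdx_le_length (not_lt.1 h)
    have h2 := List.findIdx_eq_length.1 h1 (L[n]) (List.getElem_mem hn)
    rw [List.getD_eq_getElem?_getD, List.getElem?_eq_getElem hn]
    simpa using h2
  · rw [List.getD_eq_getElem?_getD, List.getElem?_eq_none hn]
    rfl

theorem mem_star (S : Set ℕ) (l n : ℕ) (hn : n ∉ S) (L : List (ℕ × ℕ))
    (hL : ∀ m, m ≠ n → L.getD m (0, 0) = (0, 0)) : pm (0, l, L) ∈ K1 S := by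
  refine ⟨fun m => ⟨smul_angle m _ _, fun hmS => rr_one ?_⟩, fun k => ?_⟩
  · have : m ≠ n := fun h => hn (h ▸ hmS)
    simp only
    rw [hL m this]
  · by_cases h2 : k = n
    · right
      subst h2
      refine ⟨?_, fun m hmn => ⟨rr_one ?_, ww_zero rfl ?_⟩⟩
      · change ((((0 : ℕ) : ℝ) / 2 ^ l : ℝ) : UnitAddCircle) = 0
        simp
      · simp only
        rw [hL m hmn]
      · simp only
        rw [hL m hmn]
    · left
      refine rr_one ?_
      simp only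
      rw [hL k h2]

theorem mem_K1 (S : Set ℕ) (T : ℕ → ℕ → Bool) (hT : ∀ n, n ∉ S ↔ ∃ y, T n y = true) (k : ℕ) :
    pm (sq1 T k) ∈ K1 S := by
  have hm := mem_K S T hT k
  unfold sq1 co1
  generalize Pool.Agent.W361.LQ.sq T k = c at hm ⊢
  split_ifs with h
  · have hn : fst1 c.2.2 ∉ S := fun hn => fst1_lt h (rr_ne ((hm _).2 hn))
    refine mem_star S _ (fst1 c.2.2) hn _ fun m hmn => ?_
    rw [getD_map_range, if_neg hmn]
    split_ifs <;> rfl
  · exact ⟨hm, fun n => Or.inl (rr_one (fst1_ge h n))⟩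

theorem co1_fix {c : Cd} (h : ∀ n, (c.2.2.getD n (0, 0)).2 ≠ 0 →
    c.1 = 0 ∧ ∀ m, m ≠ n → c.2.2.getD m (0, 0) = (0, 0)) : co1 c = c := by
  unfold co1
  split_ifs with h1
  · obtain ⟨h2, h3⟩ := h _ (fst1_lt h1)
    refine Prod.ext h2.symm (Prod.ext rfl ?_)
    refine List.ext_getElem (by simp) fun m hm1 hm2 => ?_
    rw [List.getElem_map, List.getElem_range]
    have e : c.2.2[m] = c.2.2.getD m (0, 0) := by
      rw [List.getD_eq_getElem?_getD, List.getElem?_eq_getElem hm2]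
      rfl
    rw [e]
    split_ifs with h4
    · rfl
    · exact (h3 m h4).symm
  · rfl

theorem param (S : Set ℕ) (a : Pm) (ha : a ∈ K1 S) : ∃ (t : ℝ) (j : ℕ → ℕ), 0 ≤ t ∧
    (t : UnitAddCircle) = a.1 ∧ (∀ n, a.2.2 n = (((t + j n) / M n : ℝ) : UnitAddCircle)) ∧
    ∀ n, a.2.1 n ≠ 1 → t = 0 ∧ ∀ m, m ≠ n → j m = 0 ∧ a.2.1 m = 1 := by
  by_cases h : ∃ n, a.2.1 n ≠ 1
  · obtain ⟨n, hn⟩ := h
    obtain ⟨hz, h2⟩ := (ha.2 n).resolve_left hn
    obtain ⟨j, hj⟩ := angle n 0 one_pos (a.2.2 n) (by rw [(ha.1 n).1, hz]; rfl)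
    refine ⟨0, fun m => if m = n then j else 0, le_rfl, ?_, fun m => ?_, fun m hm => ?_⟩
    · rw [hz]; rfl
    · by_cases hmn : m = n
      · subst hmn
        simpa using hj
      · rw [(h2 m hmn).2]
        simp [hmn]
    · have hmn : m = n := by
        by_contra hmn
        exact hm (h2 m hmn).1
      subst hmn
      exact ⟨rfl, fun l hl => ⟨if_neg hl, (h2 l hl).1⟩⟩
  · push Not at h
    obtain ⟨t, ht0, ht1, ht⟩ := rep_exists a.1
    have hang : ∀ n, ∃ j : ℕ, a.2.2 n = (((t + j) / M n : ℝ) : UnitAddCircle) := by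
      intro n
      apply angle n t ht1
      rw [(ha.1 n).1, ht]
    choose j hj using hang
    exact ⟨t, j, ht0, ht, hj, fun n hn => absurd (h n) hn⟩

theorem dense1 (S : Set ℕ) (T : ℕ → ℕ → Bool) (hT : ∀ n, n ∉ S ↔ ∃ y, T n y = true) :
    ∀ a ∈ K1 S, ∀ ε : ℝ, 0 < ε → ∃ k, dist (Phi a) (Phi (pm (sq1 T k))) < ε := by
  intro a ha ε hε
  obtain ⟨N, hN⟩ := exists_pow_lt_of_lt_one (show (0 : ℝ) < ε / 4 by linarith)
    (show (1 / 2 : ℝ) < 1 by norm_num)
  obtain ⟨l, hl⟩ := exists_pow_lt_of_lt_one (show (0 : ℝ) < ε / 4 by linarith)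
    (show (1 / 2 : ℝ) < 1 by norm_num)
  obtain ⟨t, j, ht0, ht, hj, hst⟩ := param S a ha
  have hex : ∀ n, ∃ y, n ∉ S → T n y = true := by
    intro n
    by_cases h : n ∈ S
    · exact ⟨0, fun h' => absurd h h'⟩
    · obtain ⟨y, hy⟩ := (hT n).mp h
      exact ⟨y, fun _ => hy⟩
  choose y hy using hex
  obtain ⟨s, hs⟩ : ∃ s, ∀ n < N, y n < s := by
    refine ⟨(Finset.range N).sup (fun n => y n + 1), fun n hn => ?_⟩
    have : y n + 1 ≤ (Finset.range N).sup (fun n => y n + 1) :=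
      Finset.le_sup (f := fun n => y n + 1) (Finset.mem_range.mpr hn)
    omega
  obtain ⟨L, hLlen, hL⟩ : ∃ L : List (ℕ × ℕ), L.length = N ∧ ∀ n, L.getD n (0, 0) =
      if n < N then (j n, ⌊(1 - (a.2.1 n : ℝ)) * 2 ^ l⌋₊) else (0, 0) := by
    refine ⟨(List.range N).map (fun n => (j n, ⌊(1 - (a.2.1 n : ℝ)) * 2 ^ l⌋₊)), by simp,
      fun n => ?_⟩
    rw [getD_map_range]
  obtain ⟨k, hraw⟩ : ∃ k, raw k = (⌊t * 2 ^ l⌋₊, l, s, L) := by
    refine ⟨Encodable.encode ((⌊t * 2 ^ l⌋₊, l, s, L) : ℕ × ℕ × ℕ × List (ℕ × ℕ)), ?_⟩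
    unfold raw
    rw [Encodable.encodek]
    rfl
  have hsq : Pool.Agent.W361.LQ.sq T k = (⌊t * 2 ^ l⌋₊, l, nm T s L) := by
    unfold Pool.Agent.W361.LQ.sq
    rw [hraw]
  have hgetD : ∀ n < N, (nm T s L).getD n (0, 0) =
      (j n, ⌊(1 - (a.2.1 n : ℝ)) * 2 ^ l⌋₊) := by
    intro n hn
    rw [getD_nm, hLlen, if_pos hn, hL n, if_pos hn]
    by_cases hnS : n ∈ S
    · have e2 : ⌊(1 - (a.2.1 n : ℝ)) * 2 ^ l⌋₊ = 0 := by
        rw [(ha.1 n).2 hnS]
        simp
      simp [e2]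
    · have e2 : fl T n s = true := by
        rw [fl_true]
        exact ⟨y n, hs n hn, hy n hnS⟩
      simp [e2]
  have hgetD' : ∀ n, ¬ n < N → (nm T s L).getD n (0, 0) = (0, 0) := by
    intro n hn
    rw [getD_nm, hLlen, if_neg hn]
  have hfix : sq1 T k = (⌊t * 2 ^ l⌋₊, l, nm T s L) := by
    unfold sq1
    rw [hsq]
    refine co1_fix fun n hn => ?_
    have hnN : n < N := by
      by_contra h
      rw [hgetD' n h] at hn
      exact hn rfl
    have hn1 : a.2.1 n ≠ 1 := by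
      intro h
      rw [hgetD n hnN] at hn
      apply hn
      simp [h]
    obtain ⟨h1, h2⟩ := hst n hn1
    refine ⟨?_, fun m hm => ?_⟩
    · simp [h1]
    · by_cases hmN : m < N
      · have h3 := hgetD m hmN
        simp only at h3 ⊢
        rw [h3, (h2 m hm).1, (h2 m hm).2]
        simp
      · exact hgetD' m hmN
  refine ⟨k, ?_⟩
  rw [hfix]
  have := dist_est a (⌊t * 2 ^ l⌋₊, l, nm T s L) t N ε j hN hl ht hj (floor_approx t ht0 l) hgetD
  linarith

/-! ## Computability -/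

theorem p_fst1 : Primrec fst1 := by
  have h : Primrec₂ fun (_ : List (ℕ × ℕ)) (p : ℕ × ℕ) => decide (p.2 ≠ 0) := by
    have h1 : PrimrecPred fun x : List (ℕ × ℕ) × (ℕ × ℕ) => ¬ x.2.2 = 0 :=
      (Primrec.eq.comp (Primrec.snd.comp Primrec.snd) (Primrec.const 0)).not
    exact h1.decide
  exact Primrec.list_findIdx Primrec.id h

theorem p_co1 : Primrec co1 := by
  have hL : Primrec fun c : Cd => c.2.2 := Primrec.snd.comp Primrec.snd
  have hf : Primrec fun c : Cd => fst1 c.2.2 := p_fst1.comp hL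
  have hl : Primrec fun c : Cd => c.2.2.length := Primrec.list_length.comp hL
  have h1 : PrimrecPred fun c : Cd => fst1 c.2.2 < c.2.2.length := Primrec.nat_lt.comp hf hl
  have h2 : Primrec₂ fun (c : Cd) (m : ℕ) =>
      if m = fst1 c.2.2 then c.2.2.getD m (0, 0) else ((0, 0) : ℕ × ℕ) := by
    refine Primrec.ite (Primrec.eq.comp Primrec.snd (hf.comp Primrec.fst))
      ((Primrec.list_getD (0, 0)).comp (hL.comp Primrec.fst) Primrec.snd) (Primrec.const (0, 0))
  have h3 : Primrec fun c : Cd => ((0, c.2.1, (List.range c.2.2.length).map fun m =>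
      if m = fst1 c.2.2 then c.2.2.getD m (0, 0) else (0, 0)) : Cd) :=
    (Primrec.const 0).pair ((Primrec.fst.comp Primrec.snd).pair
      (Primrec.list_map (Primrec.list_range.comp hl) h2))
  exact Primrec.ite h1 h3 Primrec.id

theorem si_sq1 (D : ℕ → Bool) (T : ℕ → ℕ → Bool)
    (hT : TLe (fun m => T m.unpair.1 m.unpair.2) D) :
    SI D fun x : ℕ × Cd => sq1 T x.1 = x.2 := by
  have h1 : SI D fun x : ℕ × Cd => ∃ c : Cd, Pool.Agent.W361.LQ.sq T x.1 = c ∧ co1 c = x.2 := by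
    refine SI.ex (p := fun (x : ℕ × Cd) (c : Cd) =>
      Pool.Agent.W361.LQ.sq T x.1 = c ∧ co1 c = x.2) (SI.and ?_ ?_)
    · exact (Pool.Agent.W585.LQ.NM.main D T hT).comp
        (f := fun y : (ℕ × Cd) × Cd => (y.1.1, y.2))
        ((Primrec.fst.comp Primrec.fst).pair Primrec.snd)
    · exact SI.of_prim (Primrec.eq.comp (p_co1.comp Primrec.snd) (Primrec.snd.comp Primrec.fst))
  refine h1.of_eq fun x => ?_
  constructor
  · rintro ⟨c, h2, h3⟩
    unfold sq1
    rw [h2, h3]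
  · intro h2
    exact ⟨_, rfl, h2⟩

end Pool.Agent.Q38.LC
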